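import Pool.Agent.Helper54.PT.Defs

/-!
# MP_1d384c_nt : module B6 (the diagonal terms and the trivial bound)
-/

set_option autoImplicit false

namespace Pool.Agent.Helper18.TWB6

open Finset Filter Topology Pool.Agent.Helper54.PT

section

variable {ℓ : ℕ} [Fact ℓ.Prime] {σ : Type} [Fintype σ] (X : PData ℓ σ)
variable {U : Type} [Fintype U] [DecidableEq U]

omit [Fact ℓ.Prime] [Fintype σ] in
theorem symS_comm {A B : Finset X.P} (h : Disjoint A B) : X.symS A B = X.symS B A := by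
  unfold PData.symS
  rw [Finset.sum_comm]
  refine Finset.sum_congr rfl fun p hp => Finset.sum_congr rfl fun p' hp' => ?_
  apply X.sym_comm
  rintro rfl
  exact Finset.disjoint_left.mp h hp' hp

omit [Fintype σ] in
theorem phase_eq_zero (Φ : U → U → ZMod ℓ) (hΦ : ∀ u, Φ u u = 0) {𝒰 : Finset U}
    (h𝒰 : Unl Φ 𝒰) (D : U → Finset X.P) (hD : ∀ u, u ∉ 𝒰 → D u = ∅)
    (hdis : ∀ u u', u ≠ u' → Disjoint (D u) (D u')) :
    ∑ u, ∑ u', Φ u u' * X.symS (D u) (D u') = 0 := by
  rw [← Finset.sum_product']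
  apply Finset.sum_involution (fun a _ => (a.2, a.1))
  · rintro ⟨u, u'⟩ _
    simp only
    by_cases huu : u = u'
    · subst huu; simp [hΦ]
    by_cases hu : u ∈ 𝒰
    · by_cases hu' : u' ∈ 𝒰
      · rw [symS_comm X (hdis u' u (Ne.symm huu)), ← add_mul, h𝒰 u hu u' hu', zero_mul]
      · rw [hD u' hu']; simp [PData.symS]
    · rw [hD u hu]; simp [PData.symS]
  · rintro ⟨u, u'⟩ _ hne h
    simp only [Prod.mk.injEq] at h
    apply hne
    simp only
    rw [h.1, hΦ, zero_mul]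
  · intro a _; exact Finset.mem_product.mpr ⟨Finset.mem_univ _, Finset.mem_univ _⟩
  · intro a _; rfl

/-- The tuple attached to a colouring. -/
noncomputable def tof (y : (D : Finset X.P) × ((p : X.P) → p ∈ D → U)) (u : U) : Finset X.P :=
  (y.1.attach.filter fun p => y.2 p.1 p.2 = u).image (fun p => p.1)

omit [Fact ℓ.Prime] [Fintype σ] [Fintype U] in
theorem mem_tof (y : (D : Finset X.P) × ((p : X.P) → p ∈ D → U)) (u : U) (p : X.P) :
    p ∈ tof X y u ↔ ∃ h : p ∈ y.1, y.2 p h = u := by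
  unfold tof
  simp only [mem_image, mem_filter, mem_attach, true_and, Subtype.exists, exists_and_right,
    exists_eq_right]

omit [Fact ℓ.Prime] [Fintype σ] in
theorem prod_tof {R : Type} [CommMonoid R] (c : U → X.P → R)
    (y : (D : Finset X.P) × ((p : X.P) → p ∈ D → U)) :
    ∏ u, ∏ p ∈ tof X y u, c u p = ∏ p ∈ y.1.attach, c (y.2 p.1 p.2) p.1 := by
  rw [← Finset.prod_fiberwise y.1.attach (fun p => y.2 p.1 p.2)]
  refine Finset.prod_congr rfl fun u _ => ?_
  unfold tof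
  rw [Finset.prod_image (fun a _ b _ h => Subtype.ext h)]
  refine Finset.prod_congr rfl fun p hp => ?_
  rw [(mem_filter.mp hp).2]

omit [Fact ℓ.Prime] [Fintype σ] in
theorem sum_dg_tof (y : (D : Finset X.P) × ((p : X.P) → p ∈ D → U)) :
    ∑ u, X.dg (tof X y u) = X.dg y.1 := by
  have h := prod_tof X (R := Multiplicative ℕ) (fun _ p => Multiplicative.ofAdd (X.deg p)) y
  rw [Finset.prod_attach y.1 (fun p => Multiplicative.ofAdd (X.deg p))] at h
  have h2 := congrArg Multiplicative.toAdd h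
  simpa [PData.dg, toAdd_prod] using h2

end

end Pool.Agent.Helper18.TWB6

namespace Pool.Agent.Helper54.PT

open Finset Filter Topology Pool.Agent.Helper18.TWB6

section

variable {ℓ : ℕ} [Fact ℓ.Prime] {σ : Type} [Fintype σ] [DecidableEq σ] (X : PData ℓ σ) {q : ℕ}

section

variable {U : Type} [Fintype U] [DecidableEq U] (Φ : U → U → ZMod ℓ) (M : ℕ)
  (θ : U → Option σ → ZMod ℓ)

/-- B6: the diagonal terms -/
theorem SS_diag (hΦ : ∀ u, Φ u u = 0) {𝒰 : Finset U} (h𝒰 : Unl Φ 𝒰) (n : ℕ) :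
    ∑ m ∈ (piAntidiag (univ : Finset U) n).filter (fun m => ∀ u, u ∉ 𝒰 → m u = 0),
      X.SS Φ M θ m = X.ZU M θ 𝒰 n := by
  classical
  set c : U → X.P → ℂ := fun u p => ee (dot (θ u) (X.xx p)) / (M : ℂ) with hc
  -- empty components
  have hempty : ∀ (m : U → ℕ) (D : U → Finset X.P), D ∈ X.tup m → ∀ u, m u = 0 → D u = ∅ := by
    intro m D hD u hu
    have h1 := ((X.mem_tup).1 hD).1 u
    rw [hu] at h1
    unfold PData.dg at h1
    rw [Finset.sum_eq_zero_iff] at h1
    apply Finset.eq_empty_of_forall_notMem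
    intro p hp
    have := h1 p hp
    have := X.deg_pos p
    omega
  have hL : ∑ m ∈ (piAntidiag (univ : Finset U) n).filter (fun m => ∀ u, u ∉ 𝒰 → m u = 0),
      X.SS Φ M θ m =
      ∑ x ∈ ((piAntidiag (univ : Finset U) n).filter (fun m => ∀ u, u ∉ 𝒰 → m u = 0)).sigma
        (fun m => X.tup m), ∏ u, ∏ p ∈ x.2 u, c u p := by
    rw [Finset.sum_sigma]
    refine Finset.sum_congr rfl fun m hm => ?_
    unfold PData.SS
    refine Finset.sum_congr rfl fun D hD => ?_
    unfold PData.wt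
    have hm' := (mem_filter.mp hm).2
    rw [phase_eq_zero X Φ hΦ h𝒰 D (fun u hu => hempty m D hD u (hm' u hu))
      ((X.mem_tup).1 hD).2]
    have h0 : ee (0 : ZMod ℓ) = 1 := by simp [ee]
    rw [h0, mul_one]
  have hR : X.ZU M θ 𝒰 n = ∑ y ∈ (X.sq n).sigma (fun D => D.pi fun _ => 𝒰),
      ∏ p ∈ y.1.attach, c (y.2 p.1 p.2) p.1 := by
    rw [Finset.sum_sigma]
    unfold PData.ZU
    refine Finset.sum_congr rfl fun D _ => ?_
    have h1 : ∀ p ∈ D, (∑ u ∈ 𝒰, ee (dot (θ u) (X.xx p))) / (M : ℂ) = ∑ u ∈ 𝒰, c u p := by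
      intro p _
      rw [Finset.sum_div]
    rw [Finset.prod_congr rfl h1, Finset.prod_sum]
  rw [hL, hR]
  symm
  refine Finset.sum_bij
    (fun y _ => (⟨fun u => X.dg (tof X y u), tof X y⟩ : (_ : U → ℕ) × (U → Finset X.P)))
    ?_ ?_ ?_ ?_
  · intro y hy
    rw [mem_sigma] at hy
    have h1 := (X.mem_sq).1 hy.1
    have h2 := mem_pi.mp hy.2
    have hem : ∀ u, u ∉ 𝒰 → tof X y u = ∅ := by
      intro u hu
      apply Finset.eq_empty_of_forall_notMem
      intro p hp
      obtain ⟨h, rfl⟩ := (mem_tof X y u p).1 hp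
      exact hu (h2 p h)
    rw [mem_sigma, mem_filter, mem_piAntidiag, X.mem_tup]
    refine ⟨⟨⟨?_, fun u _ => mem_univ _⟩, fun u hu => ?_⟩, fun u => rfl, ?_⟩
    · rw [sum_dg_tof]; exact h1
    · simp only [hem u hu]; rfl
    · intro u u' huu
      rw [Finset.disjoint_left]
      intro p hp hp'
      obtain ⟨h, h3⟩ := (mem_tof X y u p).1 hp
      obtain ⟨h', h4⟩ := (mem_tof X y u' p).1 hp'
      exact huu (h3.symm.trans h4)
  · rintro ⟨D₁, g₁⟩ _ ⟨D₂, g₂⟩ _ h
    have hT : tof X ⟨D₁, g₁⟩ = tof X ⟨D₂, g₂⟩ := by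
      simp only [Sigma.mk.injEq] at h
      exact eq_of_heq h.2
    have hD : D₁ = D₂ := by
      ext p
      constructor
      · intro hp
        have h1 : p ∈ tof X ⟨D₁, g₁⟩ (g₁ p hp) := (mem_tof X _ _ p).2 ⟨hp, rfl⟩
        rw [hT] at h1
        exact ((mem_tof X _ _ p).1 h1).1
      · intro hp
        have h1 : p ∈ tof X ⟨D₂, g₂⟩ (g₂ p hp) := (mem_tof X _ _ p).2 ⟨hp, rfl⟩
        rw [← hT] at h1
        exact ((mem_tof X _ _ p).1 h1).1
    subst hD
    have hg : g₁ = g₂ := by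
      funext p hp
      have h1 : p ∈ tof X ⟨D₁, g₁⟩ (g₁ p hp) := (mem_tof X _ _ p).2 ⟨hp, rfl⟩
      rw [hT] at h1
      obtain ⟨h2, h3⟩ := (mem_tof X _ _ p).1 h1
      exact h3.symm
    rw [hg]
  · rintro ⟨m, T⟩ hx
    rw [mem_sigma, mem_filter, mem_piAntidiag, X.mem_tup] at hx
    obtain ⟨⟨⟨hm1, _⟩, hm2⟩, hT1, hT2⟩ := hx
    simp only at hm1 hm2 hT1 hT2
    have hT' : T ∈ X.tup m := (X.mem_tup).2 ⟨hT1, hT2⟩
    have hexu : ∀ p, p ∈ univ.biUnion T → ∃ u, p ∈ T u := by
      intro p hp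
      obtain ⟨u, _, hu⟩ := mem_biUnion.mp hp
      exact ⟨u, hu⟩
    set y : (D : Finset X.P) × ((p : X.P) → p ∈ D → U) :=
      ⟨univ.biUnion T, fun p hp => (hexu p hp).choose⟩ with hy
    have hyT : tof X y = T := by
      funext u
      ext p
      rw [mem_tof]
      constructor
      · rintro ⟨h, h2⟩
        have h3 := (hexu p h).choose_spec
        have h4 : (hexu p h).choose = u := h2
        rw [h4] at h3
        exact h3
      · intro hp
        have h : p ∈ univ.biUnion T := mem_biUnion.mpr ⟨u, mem_univ _, hp⟩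
        refine ⟨h, ?_⟩
        have h3 := (hexu p h).choose_spec
        by_contra hne
        exact Finset.disjoint_left.mp (hT2 _ _ hne) h3 hp
    refine ⟨y, ?_, ?_⟩
    · rw [mem_sigma]
      refine ⟨(X.mem_sq).2 ?_, mem_pi.mpr ?_⟩
      · rw [← sum_dg_tof X y, hyT, ← hm1]
        exact Finset.sum_congr rfl fun u _ => hT1 u
      · intro p hp
        by_contra hu
        have h3 := (hexu p hp).choose_spec
        have h4 := hempty m T hT' _ (hm2 _ hu)
        have h5 : p ∈ T (y.2 p hp) := h3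
        rw [h4] at h5
        simp at h5
    · have h1 : (fun u => X.dg (tof X y u)) = m := by
        funext u
        rw [hyT, hT1]
      rw [hyT] at h1 ⊢
      rw [h1]
  · intro y _
    exact (prod_tof X c y).symm

/-- B6': trivial bound -/
theorem SS_trivial (hM : 1 ≤ M) (m : U → ℕ) :
    ‖X.SS Φ M θ m‖ ≤ ∑ D ∈ X.tup m, ((M : ℝ)⁻¹) ^ (∑ u, (D u).card) := by
  classical
  have hee : ∀ x : ZMod ℓ, ‖ee x‖ = 1 := by
    intro x
    unfold ee
    exact AddChar.norm_apply _ _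
  unfold PData.SS
  refine (norm_sum_le _ _).trans (Finset.sum_le_sum fun D _ => le_of_eq ?_)
  unfold PData.wt
  rw [norm_mul, hee, mul_one, norm_prod]
  have : ∀ u, ‖∏ p ∈ D u, (ee (dot (θ u) (X.xx p)) / (M : ℂ))‖ = ((M : ℝ)⁻¹) ^ (D u).card := by
    intro u
    rw [norm_prod, Finset.prod_congr rfl (g := fun _ => ((M : ℝ)⁻¹)), Finset.prod_const]
    intro p _
    rw [norm_div, hee, Complex.norm_natCast, one_div]
  rw [Finset.prod_congr rfl fun u _ => this u, Finset.prod_pow_eq_pow_sum]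

end

end

end Pool.Agent.Helper54.PT
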